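import Mathlib
import Pool.Agent.U180.NG.Stm

/-! Project NG, package EM: the lengths of the rows of a disc. -/

set_option autoImplicit false

open MeasureTheory Set Topology

namespace Pool.Agent.U111.NG

open Pool.Agent.U180.NG

/-- half of the length of the row at height `t` -/
noncomputable def ff (R t : ℝ) : ℝ := Real.sqrt (R ^ 2 - t ^ 2)

theorem ff_cont (R : ℝ) : Continuous (ff R) := by
  unfold ff
  fun_prop

theorem ff_nonneg (R t : ℝ) : 0 ≤ ff R t := Real.sqrt_nonneg _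

theorem ff_concave (R : ℝ) {x y a b : ℝ} (hx : x ^ 2 ≤ R ^ 2) (hy : y ^ 2 ≤ R ^ 2) (ha : 0 ≤ a) (hb : 0 ≤ b)
    (hab : a + b = 1) : a * ff R x + b * ff R y ≤ ff R (a * x + b * y) := by
  unfold ff
  apply Real.le_sqrt_of_sq_le
  have hu := Real.sq_sqrt (show 0 ≤ R ^ 2 - x ^ 2 by linarith)
  have hv := Real.sq_sqrt (show 0 ≤ R ^ 2 - y ^ 2 by linarith)
  set u := Real.sqrt (R ^ 2 - x ^ 2)
  set v := Real.sqrt (R ^ 2 - y ^ 2)
  have h1 : u * v + x * y ≤ R ^ 2 := by nlinarith [sq_nonneg (u - v), sq_nonneg (x - y)]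
  have h2 : a * b * (u * v + x * y) ≤ a * b * R ^ 2 := mul_le_mul_of_nonneg_left h1 (mul_nonneg ha hb)
  have e1 : (a * u + b * v) ^ 2 + (a * x + b * y) ^ 2 =
      a ^ 2 * (u ^ 2 + x ^ 2) + b ^ 2 * (v ^ 2 + y ^ 2) + 2 * (a * b * (u * v + x * y)) := by ring
  have e2 : a ^ 2 * R ^ 2 + b ^ 2 * R ^ 2 + 2 * (a * b * R ^ 2) = (a + b) ^ 2 * R ^ 2 := by ring
  have e3 : u ^ 2 + x ^ 2 = R ^ 2 := by linarith
  have e4 : v ^ 2 + y ^ 2 = R ^ 2 := by linarith
  rw [e3, e4] at e1
  rw [hab, one_pow, one_mul] at e2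
  linarith

theorem ff_int (R a b : ℝ) : IntervalIntegrable (ff R) volume a b := (ff_cont R).intervalIntegrable _ _

theorem ff_total {R : ℝ} (hR : 0 < R) : ∫ t in (-R)..R, ff R t = Real.pi * R ^ 2 / 2 := by
  have h := intervalIntegral.integral_comp_mul_left (ff R) (c := R) (a := -1) (b := 1) hR.ne'
  have h1 : ∀ x : ℝ, ff R (R * x) = R * Real.sqrt (1 - x ^ 2) := by
    intro x
    unfold ff
    have : R ^ 2 - (R * x) ^ 2 = R ^ 2 * (1 - x ^ 2) := by ring
    rw [this, Real.sqrt_mul (sq_nonneg R), Real.sqrt_sq hR.le]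
  simp only [h1] at h
  rw [intervalIntegral.integral_const_mul, integral_sqrt_one_sub_sq] at h
  have h2 : (∫ x in R * -1..R * 1, ff R x) = R * (R * (Real.pi / 2)) := by
    rw [h, smul_eq_mul, ← mul_assoc, mul_inv_cancel₀ hR.ne', one_mul]
  have h3 : R * -1 = -R := by ring
  rw [h3, mul_one] at h2
  rw [h2]
  ring

/-- trapezoid rule -/
theorem trap {R x : ℝ} (hx : x ^ 2 ≤ R ^ 2) (hy : (x + 1) ^ 2 ≤ R ^ 2) :
    (ff R x + ff R (x + 1)) / 2 ≤ ∫ t in x..(x + 1), ff R t := by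
  have h1 : (∫ t in x..(x + 1), ff R t) = ∫ s in (0 : ℝ)..1, ff R (s + x) := by
    rw [intervalIntegral.integral_comp_add_right (ff R) x]
    congr 1 <;> ring
  have h2 : (∫ s in (0 : ℝ)..1, ((1 - s) * ff R x + s * ff R (x + 1))) = (ff R x + ff R (x + 1)) / 2 := by
    have : ∀ s : ℝ, (1 - s) * ff R x + s * ff R (x + 1) = ff R x + s * (ff R (x + 1) - ff R x) := fun s => by ring
    simp only [this]
    rw [intervalIntegral.integral_add (continuous_const.intervalIntegrable _ _) ((by fun_prop : Continuous fun s : ℝ =>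
      s * (ff R (x + 1) - ff R x)).intervalIntegrable _ _), intervalIntegral.integral_mul_const,
      intervalIntegral.integral_const, integral_id]
    simp only [smul_eq_mul]
    ring
  rw [h1, ← h2]
  refine intervalIntegral.integral_mono_on zero_le_one ?_ ?_ ?_
  · exact (by fun_prop : Continuous fun s : ℝ => (1 - s) * ff R x + s * ff R (x + 1)).intervalIntegrable _ _
  · exact ((ff_cont R).comp (by fun_prop)).intervalIntegrable _ _
  · intro s hs
    have h := ff_concave R hx hy (a := 1 - s) (b := s) (by linarith [hs.2]) hs.1 (by ring)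
    have h' : (1 - s) * x + s * (x + 1) = s + x := by ring
    rwa [h'] at h

/-- midpoint rule -/
theorem midp {R x : ℝ} (hx : (x - 1 / 2) ^ 2 ≤ R ^ 2) (hy : (x + 1 / 2) ^ 2 ≤ R ^ 2) :
    ∫ t in (x - 1 / 2)..(x + 1 / 2), ff R t ≤ ff R x := by
  have h1 : (∫ t in (x - 1 / 2)..(x + 1 / 2), ff R t) = ∫ s in (-(1 / 2) : ℝ)..(1 / 2), ff R (s + x) := by
    rw [intervalIntegral.integral_comp_add_right (ff R) x]
    congr 1 <;> ring
  have h2 : (∫ t in (x - 1 / 2)..(x + 1 / 2), ff R t) = ∫ s in (-(1 / 2) : ℝ)..(1 / 2), ff R (x - s) := by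
    rw [intervalIntegral.integral_comp_sub_left (ff R) x]
    congr 1; ring
  have c1 : IntervalIntegrable (fun s : ℝ => ff R (s + x)) volume (-(1 / 2)) (1 / 2) :=
    ((ff_cont R).comp (by fun_prop)).intervalIntegrable _ _
  have c2 : IntervalIntegrable (fun s : ℝ => ff R (x - s)) volume (-(1 / 2)) (1 / 2) :=
    ((ff_cont R).comp (by fun_prop)).intervalIntegrable _ _
  have h3 : (∫ s in (-(1 / 2) : ℝ)..(1 / 2), (ff R (s + x) + ff R (x - s))) ≤
      ∫ _s in (-(1 / 2) : ℝ)..(1 / 2), 2 * ff R x := by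
    refine intervalIntegral.integral_mono_on (by norm_num) (c1.add c2)
      (continuous_const.intervalIntegrable _ _) ?_
    intro s hs
    have hs1 : (s + x) ^ 2 ≤ R ^ 2 := by
      rcases le_total 0 (s + x) with h | h
      · refine le_trans ?_ hy
        have : s + x ≤ x + 1 / 2 := by linarith [hs.2]
        nlinarith
      · refine le_trans ?_ hx
        have : x - 1 / 2 ≤ s + x := by linarith [hs.1]
        nlinarith
    have hs2 : (x - s) ^ 2 ≤ R ^ 2 := by
      rcases le_total 0 (x - s) with h | h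
      · refine le_trans ?_ hy
        have : x - s ≤ x + 1 / 2 := by linarith [hs.1]
        nlinarith
      · refine le_trans ?_ hx
        have : x - 1 / 2 ≤ x - s := by linarith [hs.2]
        nlinarith
    have h := ff_concave R hs1 hs2 (a := 1 / 2) (b := 1 / 2) (by norm_num) (by norm_num) (by norm_num)
    have h' : 1 / 2 * (s + x) + 1 / 2 * (x - s) = x := by ring
    rw [h'] at h
    show ff R (s + x) + ff R (x - s) ≤ 2 * ff R x
    linarith
  rw [intervalIntegral.integral_add c1 c2, ← h1, ← h2, intervalIntegral.integral_const] at h3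
  simp only [smul_eq_mul] at h3
  have h4 : ((1 : ℝ) / 2 - -(1 / 2)) * (2 * ff R x) = 2 * ff R x := by ring
  rw [h4] at h3
  linarith

theorem sum_Icc_int (g : ℤ → ℝ) (a : ℤ) (n : ℕ) :
    ∑ m ∈ Finset.Icc a (a + n), g m = ∑ k ∈ Finset.range (n + 1), g (a + k) := by
  refine Finset.sum_bij' (fun m _ => (m - a).toNat) (fun k _ => a + k) ?_ ?_ ?_ ?_ ?_
  · intro m hm
    have := Finset.mem_Icc.1 hm
    rw [Finset.mem_range]
    omega
  · intro k hk
    have := Finset.mem_range.1 hk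
    rw [Finset.mem_Icc]
    omega
  · intro m hm
    have := Finset.mem_Icc.1 hm
    show a + ((m - a).toNat : ℤ) = m
    omega
  · intro k hk
    show ((a + (k : ℤ) - a).toNat : ℕ) = k
    omega
  · intro m hm
    have := Finset.mem_Icc.1 hm
    congr 1
    show m = a + ((m - a).toNat : ℤ)
    omega

theorem trap_sum {R t0 : ℝ} (N : ℕ) (h0 : -R ≤ t0) (h1 : t0 + N ≤ R) :
    ∑ k ∈ Finset.range (N + 1), ff R (t0 + k) - (ff R t0 + ff R (t0 + N)) / 2 ≤ ∫ t in t0..(t0 + N), ff R t := by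
  induction N with
  | zero => simp
  | succ N ih =>
    have hN : t0 + N ≤ R := by
      push_cast at h1
      linarith
    have h := ih hN
    have hN0 : (0 : ℝ) ≤ N := Nat.cast_nonneg N
    push_cast at h1 ⊢
    have hs1 : (t0 + N) ^ 2 ≤ R ^ 2 := sq_le_sq' (by linarith) hN
    have hs2 : (t0 + N + 1) ^ 2 ≤ R ^ 2 := sq_le_sq' (by linarith) (by linarith)
    have h2 := trap hs1 hs2
    have h3 : (∫ t in t0..(t0 + (N + 1)), ff R t) = (∫ t in t0..(t0 + N), ff R t) + ∫ t in (t0 + N)..(t0 + N + 1), ff R t := by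
      rw [intervalIntegral.integral_add_adjacent_intervals (ff_int _ _ _) (ff_int _ _ _), add_assoc]
    rw [Finset.sum_range_succ, h3]
    push_cast
    have h4 : t0 + ((N : ℝ) + 1) = t0 + N + 1 := by ring
    rw [h4]
    linarith

theorem mid_sum {R t0 : ℝ} (N : ℕ) (h0 : -R ≤ t0 - 1 / 2) (h1 : t0 + N - 1 / 2 ≤ R) :
    ∫ t in (t0 - 1 / 2)..(t0 + N - 1 / 2), ff R t ≤ ∑ k ∈ Finset.range N, ff R (t0 + k) := by
  induction N with
  | zero => simp
  | succ N ih =>
    have hN : t0 + N - 1 / 2 ≤ R := by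
      push_cast at h1
      linarith
    have h := ih hN
    have hN0 : (0 : ℝ) ≤ N := Nat.cast_nonneg N
    push_cast at h1 ⊢
    have hs1 : (t0 + N - 1 / 2) ^ 2 ≤ R ^ 2 := sq_le_sq' (by linarith) hN
    have hs2 : (t0 + N + 1 / 2) ^ 2 ≤ R ^ 2 := sq_le_sq' (by linarith) (by linarith)
    have h2 := midp hs1 hs2
    have h3 : (∫ t in (t0 - 1 / 2)..(t0 + (N + 1) - 1 / 2), ff R t) =
        (∫ t in (t0 - 1 / 2)..(t0 + N - 1 / 2), ff R t) + ∫ t in (t0 + N - 1 / 2)..(t0 + N + 1 / 2), ff R t := by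
      rw [intervalIntegral.integral_add_adjacent_intervals (ff_int _ _ _) (ff_int _ _ _)]
      congr 1; ring
    rw [Finset.sum_range_succ, h3]
    linarith

/-- the integral near the edge -/
theorem edge {R a b : ℝ} (hab : a ≤ b) (hl : b - a ≤ 3 / 2) (hR : 0 ≤ R)
    (h : ∀ t ∈ Icc a b, R ^ 2 - t ^ 2 ≤ 3 * R) : ∫ t in a..b, ff R t ≤ 3 * Real.sqrt R := by
  have h3 : Real.sqrt (3 * R) ≤ 2 * Real.sqrt R := by
    rw [Real.sqrt_mul (by norm_num)]
    refine mul_le_mul_of_nonneg_right ?_ (Real.sqrt_nonneg R)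
    rw [Real.sqrt_le_left (by norm_num)]
    norm_num
  have h1 : (∫ t in a..b, ff R t) ≤ ∫ _t in a..b, 2 * Real.sqrt R := by
    refine intervalIntegral.integral_mono_on hab (ff_int _ _ _)
      (continuous_const.intervalIntegrable _ _) ?_
    intro t ht
    exact (Real.sqrt_le_sqrt (h t ht)).trans h3
  rw [intervalIntegral.integral_const, smul_eq_mul] at h1
  have h2 : (b - a) * (2 * Real.sqrt R) ≤ 3 / 2 * (2 * Real.sqrt R) :=
    mul_le_mul_of_nonneg_right hl (by positivity)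
  linarith

theorem t_EM : S_EM := by
  refine ⟨12, by norm_num, fun R y hR => ?_⟩
  have hR0 : 0 < R := by linarith
  have hsq : 0 ≤ Real.sqrt R := Real.sqrt_nonneg R
  -- the rows
  set a : ℤ := ⌈-R - y⌉ with ha
  set b : ℤ := ⌊R - y⌋ with hb
  have ha1 : -R - y ≤ a := Int.le_ceil _
  have ha2 : (a : ℝ) < -R - y + 1 := Int.ceil_lt_add_one _
  have hb1 : (b : ℝ) ≤ R - y := Int.floor_le _
  have hb2 : R - y < b + 1 := Int.lt_floor_add_one _
  have hab : a < b := by
    have : (a : ℝ) < b := by linarith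
    exact_mod_cast this
  obtain ⟨M, hM⟩ : ∃ M : ℕ, b = a + ((M + 1 : ℕ) : ℤ) := ⟨(b - a - 1).toNat, by push_cast; omega⟩
  have hMr : (b : ℝ) = a + ((M : ℝ) + 1) := by
    rw [hM]; push_cast; ring
  have hsum : ∑ m ∈ rows R y, 2 * hl R y m = 2 * ∑ k ∈ Finset.range (M + 1 + 1), ff R (a + y + k) := by
    unfold rows
    rw [← ha, ← hb, hM, sum_Icc_int, Finset.mul_sum]
    refine Finset.sum_congr rfl fun k _ => ?_
    unfold hl ff
    have : ((a + (k : ℤ) : ℤ) : ℝ) + y = a + y + k := by push_cast; ring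
    rw [this]
  have htot := ff_total hR0
  -- the edges
  have eL : ∀ t ∈ Icc (-R) (-R + 3 / 2), R ^ 2 - t ^ 2 ≤ 3 * R := by
    intro t ht
    nlinarith [ht.1, ht.2]
  have eR : ∀ t ∈ Icc (R - 3 / 2) R, R ^ 2 - t ^ 2 ≤ 3 * R := by
    intro t ht
    nlinarith [ht.1, ht.2]
  have hff : ∀ t : ℝ, R ^ 2 - t ^ 2 ≤ 3 * R → ff R t ≤ 2 * Real.sqrt R := by
    intro t ht
    refine (Real.sqrt_le_sqrt ht).trans ?_
    rw [Real.sqrt_mul (by norm_num)]
    refine mul_le_mul_of_nonneg_right ?_ (Real.sqrt_nonneg R)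
    rw [Real.sqrt_le_left (by norm_num)]
    norm_num
  -- upper bound for the sum
  have h1 := trap_sum (R := R) (t0 := a + y) (M + 1) (by linarith) (by push_cast; linarith)
  have h2 : (∫ t in (a + y : ℝ)..(a + y + ((M + 1 : ℕ) : ℝ)), ff R t) ≤ ∫ t in (-R)..R, ff R t := by
    refine intervalIntegral.integral_mono_interval (by linarith) ?_ ?_ ?_ (ff_int _ _ _)
    · have : (0 : ℝ) ≤ ((M + 1 : ℕ) : ℝ) := Nat.cast_nonneg _
      linarith
    · push_cast; linarith
    · exact Filter.Eventually.of_forall fun t => ff_nonneg R t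
  have h3 : ff R (a + y) ≤ 2 * Real.sqrt R := hff _ (eL _ ⟨by linarith, by linarith⟩)
  have h4 : ff R (a + y + ((M + 1 : ℕ) : ℝ)) ≤ 2 * Real.sqrt R :=
    hff _ (eR _ ⟨by push_cast; linarith, by push_cast; linarith⟩)
  -- lower bound for the sum
  have k1 := mid_sum (R := R) (t0 := a + y + 1) M (by linarith) (by linarith)
  have k2 : ∑ k ∈ Finset.range M, ff R (a + y + 1 + k) ≤ ∑ k ∈ Finset.range (M + 1 + 1), ff R (a + y + k) := by
    rw [Finset.sum_range_succ, Finset.sum_range_succ']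
    have e : ∀ k : ℕ, (a : ℝ) + y + ((k + 1 : ℕ) : ℝ) = a + y + 1 + k := fun k => by push_cast; ring
    simp only [e]
    have := ff_nonneg R (a + y + ((0 : ℕ) : ℝ))
    have := ff_nonneg R (a + y + 1 + M)
    linarith
  have hMle : (a : ℝ) + y + 1 - 1 / 2 ≤ a + y + 1 + M - 1 / 2 := by
    have : (0 : ℝ) ≤ (M : ℝ) := Nat.cast_nonneg _
    linarith
  have k3 : (∫ t in (-R)..R, ff R t) = (∫ t in (-R)..(a + y + 1 - 1 / 2), ff R t) +
      (∫ t in (a + y + 1 - 1 / 2 : ℝ)..(a + y + 1 + M - 1 / 2), ff R t) +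
      ∫ t in (a + y + 1 + M - 1 / 2 : ℝ)..R, ff R t := by
    rw [intervalIntegral.integral_add_adjacent_intervals (ff_int _ _ _) (ff_int _ _ _),
      intervalIntegral.integral_add_adjacent_intervals (ff_int _ _ _) (ff_int _ _ _)]
  have k4 : (∫ t in (-R)..(a + y + 1 - 1 / 2), ff R t) ≤ 3 * Real.sqrt R := by
    refine edge (by linarith) (by linarith) hR0.le fun t ht => eL t ⟨ht.1, by linarith [ht.2]⟩
  have k5 : (∫ t in (a + y + 1 + M - 1 / 2 : ℝ)..R, ff R t) ≤ 3 * Real.sqrt R := by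
    refine edge (by linarith) (by linarith) hR0.le fun t ht => eR t ⟨by linarith [ht.1], ht.2⟩
  rw [hsum, abs_le]
  constructor <;> linarith

end Pool.Agent.U111.NG
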